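import Pool.Agent.EDX.Stmts2

/-! Row PGN of squad EDX. -/

set_option autoImplicit false

namespace Pool.Agent.EDX.H55

open Polynomial Finset Pool.Agent.EDG Pool.Agent.EDX Module

theorem comp_dvd_comp {R : Type} [CommRing R] {p q : R[X]} (h : p ∣ q) (r : R[X]) :
    p.comp r ∣ q.comp r := by
  obtain ⟨c, rfl⟩ := h
  rw [mul_comp]
  exact dvd_mul_right _ _

theorem F_comp_Fit (m : ℕ) : F.comp (Fit m) = Fit (m + 1) := by
  induction m with
  | zero => simp [Fit]
  | succ m ih =>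
    show F.comp ((Fit m).comp F) = (Fit (m + 1)).comp F
    rw [← comp_assoc, ih]

theorem pgn (hFRO : FroStmt) (hIRF : IrfStmt) (hSTP : StpStmt) (hCNT : CntStmt) : PgnStmt := by
  intro g J Φ Ψ hΦ0 hΦ hred hdvd hdeg
  have hchain : ∀ i, i ≤ J → Φ i ∣ Φ 0 := by
    intro i
    induction i with
    | zero => intro _; exact dvd_rfl
    | succ i ih => intro hi; exact (hΦ i hi).1.trans (ih (Nat.le_of_succ_le hi))
  have hseq : ∀ θ : FF, vt θ Ψ = 0 → ∀ K, K ≤ J → ∃ s : ℕ → ℤ[X][X],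
      (∀ j ≤ K, Irreducible (s j) ∧ 0 < (s j).natDegree ∧ (s j).map iK ∣ Φ (J - j) ∧
        vt θ (s j) = 0) ∧ ∀ j < K, s j ∣ (s (j + 1)).comp F := by
    intro θ hθ K
    induction K with
    | zero =>
      intro _
      obtain ⟨ψ, h1, h2, h3, h4⟩ := hIRF Ψ hred θ hθ
      refine ⟨fun _ => ψ, ?_, fun j hj => absurd hj (Nat.not_lt_zero j)⟩
      intro j hj
      obtain rfl : j = 0 := Nat.le_zero.mp hj
      refine ⟨h1, h2, ?_, h4⟩
      exact (Polynomial.map_dvd iK h3).trans hdvd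
    | succ K ih =>
      intro hK
      obtain ⟨s, hs1, hs2⟩ := ih (Nat.le_of_succ_le hK)
      obtain ⟨a1, a2, a3, a4⟩ := hs1 K le_rfl
      have e1 : J - K = (J - (K + 1)) + 1 := by omega
      have hlt : J - (K + 1) < J := by omega
      rw [e1] at a3
      obtain ⟨ψ', b1, b2, b3, b4⟩ := hSTP (s K) a1 a2 (Φ (J - (K + 1)))
        (hΦ0 _ hlt.le) (a3.trans (hΦ _ hlt).2)
      have c1 : vt θ (ψ'.comp F) = 0 := by
        have h5 := map_dvd (vt θ) b4
        rw [a4] at h5
        exact zero_dvd_iff.mp h5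
      have c2 : vt θ ψ' = 0 := (hFRO θ ψ').mp c1
      refine ⟨Function.update s (K + 1) ψ', ?_, ?_⟩
      · intro j hj
        rcases Nat.lt_or_ge j (K + 1) with h | h
        · rw [Function.update_of_ne (by omega)]
          exact hs1 j (by omega)
        · obtain rfl : j = K + 1 := le_antisymm hj h
          rw [Function.update_self]
          exact ⟨b1, b2, b3, c2⟩
      · intro j hj
        rcases Nat.lt_or_ge j K with h | h
        · rw [Function.update_of_ne (by omega), Function.update_of_ne (by omega)]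
          exact hs2 j h
        · obtain rfl : j = K := by omega
          rw [Function.update_self, Function.update_of_ne (by omega)]
          exact b4
  have hch : ∀ θ : FF, ∃ s : ℕ → ℤ[X][X], vt θ Ψ = 0 →
      (∀ j ≤ J, Irreducible (s j) ∧ 0 < (s j).natDegree ∧ (s j).map iK ∣ Φ (J - j) ∧
        vt θ (s j) = 0) ∧ ∀ j < J, s j ∣ (s (j + 1)).comp F := by
    intro θ
    by_cases hθ : vt θ Ψ = 0
    · obtain ⟨s, hs⟩ := hseq θ hθ J le_rfl
      exact ⟨s, fun _ => hs⟩
    · exact ⟨fun _ => 0, fun h => absurd h hθ⟩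
  choose ψ hψ using hch
  have hmem : ∀ θ ∈ Th g Ψ, θ ∈ rts g ∧ vt θ Ψ = 0 := by
    intro θ hθ
    simp only [Th, Finset.mem_filter] at hθ
    exact hθ
  by_cases hall : ∀ θ ∈ Th g Ψ, ∀ i j, i < j → j ≤ J → ¬ Associated (ψ θ i) (ψ θ j)
  · exfalso
    have h1 := hCNT (Φ 0) J (Th g Ψ) ψ (hΦ0 0 (Nat.zero_le J)) (by
      intro θ hθ j hj
      obtain ⟨a1, a2, a3, a4⟩ := (hψ θ (hmem θ hθ).2).1 j hj
      exact ⟨a1, a2, a3.trans (hchain _ (Nat.sub_le J j)), a4⟩) hall
    omega
  · push Not at hall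
    obtain ⟨θ, hθ, i, j, hij, hjJ, has⟩ := hall
    obtain ⟨hg, hv⟩ := hmem θ hθ
    obtain ⟨p1, p2⟩ := hψ θ hv
    have hcomp : ∀ m, i + m ≤ J → ψ θ i ∣ (ψ θ (i + m)).comp (Fit m) := by
      intro m
      induction m with
      | zero => intro _; simp [Fit]
      | succ m ih =>
        intro hm
        have h1 := ih (by omega)
        have h2 := comp_dvd_comp (p2 (i + m) (by omega)) (Fit m)
        rw [comp_assoc, F_comp_Fit] at h2
        exact h1.trans h2
    obtain ⟨a1, a2, a3, a4⟩ := p1 i (by omega)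
    refine ⟨ψ θ i, θ, j - i, a1, a2, a3.trans (hchain _ (Nat.sub_le J i)), hg, a4, by omega, ?_⟩
    have h3 := hcomp (j - i) (by omega)
    rw [show i + (j - i) = j by omega] at h3
    exact h3.trans (comp_dvd_comp has.symm.dvd (Fit (j - i)))

end Pool.Agent.EDX.H55
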